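import Pool.Agent.H683.CV.PLem

/-! # Project CV (helper683): `viol` is polynomial time (helper167) -/

set_option autoImplicit false

namespace Pool.Agent.NPC.H167CV

open Pool.Agent.H633R2 Pool.Agent.H683.CV

variable {α : Type} [TEnc α]

theorem p_entry {M : α → List (List Bool)} {i j : α → ℕ} (hM : Poly M)
    (hi : Poly i) (hj : Poly j) : Poly (fun a => entry (M a) (i a) (j a)) :=
  Poly.getD (Poly.getD hM hi (Poly.const [])) hj (Poly.const false)

theorem p_adj {M : α → List (List Bool)} {i j : α → ℕ} (hM : Poly M)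
    (hi : Poly i) (hj : Poly j) : Poly (fun a => adj (M a) (i a) (j a)) := by
  unfold adj
  refine Poly.and ?_ (Poly.or (p_entry hM hi hj) (p_entry hM hj hi))
  exact (Poly.not (Poly.decide_eq hi hj)).congr fun a => by simp

theorem p_nin {S : α → List ℕ} {u : α → ℕ} (hS : Poly S) (hu : Poly u) :
    Poly (fun a => nin (S a) (u a)) := by
  unfold nin
  exact Poly.all (l := S) (p := fun a s => !decide (s = u a)) hS
    (Poly.not (Poly.decide_eq (Poly.snd Poly.id) (hu.comp (Poly.fst Poly.id))))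

theorem p_vs {M : α → List (List Bool)} {S : α → List ℕ} (hM : Poly M) (hS : Poly S) :
    Poly (fun a => vs (M a) (S a)) := by
  unfold vs
  exact Poly.filter (l := fun a => List.range (M a).length) (p := fun a u => nin (S a) u)
    (UPoly.range (UPoly.length hM)) (p_nin (hS.comp (Poly.fst Poly.id)) (Poly.snd Poly.id))

theorem p_reps {M : α → List (List Bool)} {S : α → List ℕ} (hM : Poly M) (hS : Poly S) :
    Poly (fun a => reps (M a) (S a)) := by
  unfold reps
  refine Poly.filter (l := fun a => vs (M a) (S a))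
    (p := fun a v => (vs (M a) (S a)).all fun u => !(adj (M a) u v && decide (u < v)))
    (p_vs hM hS) ?_
  refine Poly.all (l := fun a : α × ℕ => vs (M a.1) (S a.1))
    (p := fun a u => !(adj (M a.1) u a.2 && decide (u < a.2)))
    (p_vs (hM.comp (Poly.fst Poly.id)) (hS.comp (Poly.fst Poly.id))) ?_
  have h1 : Poly (fun a : (α × ℕ) × ℕ => a.2) := Poly.snd Poly.id
  have h2 : Poly (fun a : (α × ℕ) × ℕ => a.1.2) := Poly.snd (Poly.fst Poly.id)
  have h3 : Poly (fun a : (α × ℕ) × ℕ => M a.1.1) := hM.comp (Poly.fst (Poly.fst Poly.id))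
  exact Poly.not (Poly.and (p_adj h3 h1 h2) (Poly.decide_lt h1 h2))

theorem p_bt {A j : α → ℕ} (hA : Poly A) (hj : Poly j) : Poly (fun a => bt (A a) (j a)) :=
  Poly.getD (Poly.natBits hA) hj (Poly.const false)

theorem p_siz {Z : α → List (ℕ × ℕ)} {j : α → ℕ} (hZ : Poly Z) (hj : Poly j) :
    Poly (fun a => siz (Z a) (j a)) := by
  unfold siz
  exact Poly.length (Poly.filter (l := Z) (p := fun a z => decide (z.2 = j a)) hZ
    (Poly.decide_eq (Poly.snd (Poly.snd Poly.id)) (hj.comp (Poly.fst Poly.id))))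

theorem p_rhs {B : α → List ℕ} {p : α → ℕ} {x : α → List ℕ} {t A : α → ℕ} (hB : Poly B)
    (hp : UPoly p) (hx : Poly x) (ht : Poly t) (hA : Poly A) :
    Poly (fun a => rhs (B a) (p a) (x a) (t a) (A a)) := by
  unfold rhs
  have f1 : Poly (fun y : α × ℕ => y.1) := Poly.fst Poly.id
  have f2 : Poly (fun y : α × ℕ => y.2) := Poly.snd Poly.id
  refine Poly.add (Poly.sum ?_) (Poly.sum ?_)
  · exact Poly.map (l := B) (F := fun a b => min b (t a)) hB (Poly.min f2 (ht.comp f1))
  · refine Poly.map (l := fun a => List.range (p a))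
      (F := fun a j => if bt (A a) j = true then (x a).getD j 0 - t a else 0) (UPoly.range hp) ?_
    exact Poly.ite (p := fun y : α × ℕ => bt (A y.1) y.2 = true)
      (Poly.decide_bool (p_bt (hA.comp f1) f2))
      (Poly.sub (Poly.getD (hx.comp f1) f2 (Poly.const 0)) (ht.comp f1)) (Poly.const 0)

theorem p_lhs (hval : S_PVAL) {M : α → List (List Bool)} {S : α → List ℕ}
    {Z : α → List (ℕ × ℕ)} {p : α → ℕ} {w : α → List Unit} {x : α → List ℕ} {t A l : α → ℕ}
    (hM : Poly M) (hS : Poly S) (hZ : Poly Z) (hp : UPoly p) (hw : Poly w) (hx : Poly x)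
    (ht : Poly t) (hA : Poly A) (hl : Poly l) :
    Poly (fun a => lhs (M a) (S a) (Z a) (p a) (w a) (x a) (t a) (A a) (l a)) := by
  unfold lhs
  have f1 : Poly (fun y : α × ℕ => y.1) := Poly.fst Poly.id
  have f2 : Poly (fun y : α × ℕ => y.2) := Poly.snd Poly.id
  refine Poly.add (Poly.add (Poly.mul ht hl) (Poly.sum ?_)) (Poly.sum ?_)
  · refine Poly.map (l := fun a => reps (M a) (S a))
      (F := fun a r => val (M a) (S a) (Z a) (p a) (w a) r (A a) - l a) (p_reps hM hS) ?_
    refine Poly.sub ?_ (hl.comp f1)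
    exact hval (α × ℕ) (fun y => M y.1) (fun y => S y.1) (fun y => Z y.1) (fun y => p y.1)
      (fun y => w y.1) (fun y => y.2) (fun y => A y.1) (hM.comp f1) (hS.comp f1) (hZ.comp f1)
      (hp.comp f1) (hw.comp f1) f2 (hA.comp f1)
  · refine Poly.map (l := fun a => List.range (p a))
      (F := fun a j => if bt (A a) j = true then siz (Z a) j else min ((x a).getD j 0) (t a))
      (UPoly.range hp) ?_
    exact Poly.ite (p := fun y : α × ℕ => bt (A y.1) y.2 = true)
      (Poly.decide_bool (p_bt (hA.comp f1) f2)) (p_siz (hZ.comp f1) f2)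
      (Poly.min (Poly.getD (hx.comp f1) f2 (Poly.const 0)) (ht.comp f1))

/-- `viol` is computed in polynomial time. -/
theorem PVIOL : S_PVAL → S_PVIOL := by
  intro hval α _ M B S Z p w x t A hM hB hS hZ hp hw hx ht hA
  unfold viol
  have f1 : Poly (fun y : α × ℕ => y.1) := Poly.fst Poly.id
  have f2 : Poly (fun y : α × ℕ => y.2) := Poly.snd Poly.id
  refine Poly.all (l := fun a => List.range ((M a).length + 1))
    (p := fun a l => decide (rhs (B a) (p a) (x a) (t a) (A a) <
      lhs (M a) (S a) (Z a) (p a) (w a) (x a) (t a) (A a) l))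
    (UPoly.range (UPoly.add (UPoly.length hM) (UPoly.const 1))) ?_
  exact Poly.decide_lt (p_rhs (hB.comp f1) (hp.comp f1) (hx.comp f1) (ht.comp f1) (hA.comp f1))
    (p_lhs hval (hM.comp f1) (hS.comp f1) (hZ.comp f1) (hp.comp f1) (hw.comp f1) (hx.comp f1)
      (ht.comp f1) (hA.comp f1) f2)

end Pool.Agent.NPC.H167CV
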