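import Pool.Agent.H293.EX.Stm
import Pool.Graph.R_seed8.W654.Kron

/-! # Project EX (helper293): `S_KR`, Kronecker's theorem in continuous time (helper167) -/

set_option autoImplicit false

namespace Pool.Agent.H167.EXKR

open MeasureTheory Filter Topology Set Complex Pool.Agent.H293.EX Pool.Agent.W654.Kron

theorem toCircle_arg {w : ℂ} (hw : ‖w‖ = 1) :
    ((AddCircle.toCircle (((arg w / (2 * Real.pi) : ℝ) : UnitAddCircle)) : Circle) : ℂ) = w := by
  rw [AddCircle.toCircle_apply_mk, Circle.coe_exp]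
  have e : ((2 * Real.pi / 1 * (arg w / (2 * Real.pi)) : ℝ) : ℂ) = (arg w : ℂ) := by
    congr 1
    field_simp
  rw [e]
  have h := Complex.norm_mul_exp_arg_mul_I w
  rw [hw] at h
  simpa using h

theorem toCircle_lin (h γ : ℝ) (n : ℕ) :
    ((AddCircle.toCircle (n • ((h * γ / (2 * Real.pi) : ℝ) : UnitAddCircle)) : Circle) : ℂ) =
      cexp (I * γ * ((n * h : ℝ) : ℂ)) := by
  rw [AddCircle.toCircle_nsmul, AddCircle.toCircle_apply_mk, Circle.coe_pow, Circle.coe_exp,
    ← Complex.exp_nat_mul]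
  congr 1
  have e : 2 * Real.pi / 1 * (h * γ / (2 * Real.pi)) = h * γ := by
    field_simp
  rw [e]
  push_cast
  ring

theorem t_KR : S_KR := by
  intro S w hw hrel ε hε T
  classical
  let f : (S → ℤ) × ℤ → ℝ := fun p => 2 * Real.pi * p.2 / ∑ γ : S, (p.1 γ : ℝ) * γ
  have hc : (Set.range f).Countable := Set.countable_range f
  obtain ⟨h, hhc, hh0⟩ : ∃ h : ℝ, h ∉ Set.range f ∧ 0 < h := by
    obtain ⟨h, hh1, hh2⟩ := (hc.dense_compl ℝ).exists_mem_open isOpen_Ioi
      (⟨(1:ℝ), mem_Ioi.2 one_pos⟩ : (Ioi (0:ℝ)).Nonempty)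
    exact ⟨h, hh1, hh2⟩
  let z : UnitAddTorus S := fun γ => ((h * (γ : ℝ) / (2 * Real.pi) : ℝ) : UnitAddCircle)
  let x : UnitAddTorus S := fun γ => ((arg (w γ) / (2 * Real.pi) : ℝ) : UnitAddCircle)
  have key : ∀ k : S → ℤ, ∑ i, k i • z i = 0 → ∑ i, k i • x i = 0 := by
    intro k hk
    have h1 : ∑ i, k i • z i =
        ((∑ i : S, (k i : ℝ) * (h * (i : ℝ) / (2 * Real.pi)) : ℝ) : UnitAddCircle) := by
      have h2 : ∀ i : S, k i • z i =
          (((k i : ℝ) * (h * (i : ℝ) / (2 * Real.pi)) : ℝ) : UnitAddCircle) := by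
        intro i
        rw [← zsmul_eq_mul, AddCircle.coe_zsmul]
      rw [Finset.sum_congr rfl fun i _ => h2 i]
      exact (map_sum (QuotientAddGroup.mk' (AddSubgroup.zmultiples (1:ℝ))) _ _).symm
    rw [h1, AddCircle.coe_eq_zero_iff] at hk
    obtain ⟨m, hm⟩ := hk
    set V : ℝ := ∑ γ : S, (k γ : ℝ) * γ with hV
    have h3 : ∑ i : S, (k i : ℝ) * (h * (i : ℝ) / (2 * Real.pi)) = h * V / (2 * Real.pi) := by
      rw [hV, Finset.mul_sum, Finset.sum_div]
      refine Finset.sum_congr rfl fun i _ => ?_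
      ring
    have h4 : h * V = 2 * Real.pi * m := by
      rw [h3] at hm
      have h5 : (m : ℝ) = h * V / (2 * Real.pi) := by simpa using hm
      rw [h5]
      field_simp
    have hV0 : V = 0 := by
      by_contra hne
      apply hhc
      refine ⟨(k, m), ?_⟩
      show 2 * Real.pi * m / V = h
      rw [← h4]
      field_simp
    let n : ℝ → ℤ := fun γ => if hγ : γ ∈ S then k ⟨γ, hγ⟩ else 0
    have hn : ∀ i : S, n i = k i := fun i => dif_pos i.2
    have h5 : ∑ γ ∈ S, (n γ : ℝ) * γ = 0 := by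
      rw [← Finset.sum_coe_sort S fun γ => (n γ : ℝ) * γ]
      rw [← hV0, hV]
      exact Finset.sum_congr rfl fun i _ => by rw [hn i]
    have h6 := hrel n h5
    rw [← Finset.prod_coe_sort S fun γ => (w γ) ^ (n γ)] at h6
    apply toCircle_eq_one
    rw [← mF_eq_toCircle, mF_apply, ← h6]
    refine Finset.prod_congr rfl fun i _ => ?_
    rw [fourier_apply, AddCircle.toCircle_zsmul, Circle.coe_zpow, toCircle_arg (hw i i.2), hn i]
  -- continuity
  let F : UnitAddTorus S → (S → ℂ) := fun y i => ((AddCircle.toCircle (y i) : Circle) : ℂ)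
  have hF : Continuous F := by
    refine continuous_pi fun i => ?_
    exact continuous_subtype_val.comp (AddCircle.continuous_toCircle.comp (continuous_apply i))
  obtain ⟨δ, hδ, hδF⟩ := Metric.continuous_iff.1 hF x ε hε
  obtain ⟨N, hN⟩ := exists_nat_ge (T / h)
  obtain ⟨m, hm⟩ := kronecker z (x - N • z) (by
    intro k hk
    have h1 := key k hk
    have h2 : ∑ i, k i • (x - N • z) i = ∑ i, k i • x i - N • ∑ i, k i • z i := by
      rw [Finset.smul_sum, ← Finset.sum_sub_distrib]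
      refine Finset.sum_congr rfl fun i _ => ?_
      simp only [Pi.sub_apply, Pi.smul_apply, smul_sub]
      rw [smul_comm]
    rw [h2, h1, hk, smul_zero, sub_zero]) δ hδ
  have hm2 : dist ((m + N) • z) x < δ := by
    rw [dist_eq_norm] at hm ⊢
    rw [add_smul]
    have e : m • z - (x - N • z) = m • z + N • z - x := by abel
    rw [e] at hm
    exact hm
  have h7 := hδF _ hm2
  rw [dist_pi_lt_iff hε] at h7
  refine ⟨((m + N : ℕ) : ℝ) * h, ?_, fun γ hγ => ?_⟩
  · rw [div_le_iff₀ hh0] at hN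
    refine hN.trans ?_
    apply mul_le_mul_of_nonneg_right _ hh0.le
    push_cast
    have : (0:ℝ) ≤ m := Nat.cast_nonneg m
    linarith
  · have h8 := h7 ⟨γ, hγ⟩
    rw [dist_eq_norm] at h8
    have e1 : F ((m + N) • z) ⟨γ, hγ⟩ = cexp (I * γ * ((((m + N : ℕ) : ℝ) * h : ℝ) : ℂ)) := by
      rw [← toCircle_lin]
      rfl
    have e2 : F x ⟨γ, hγ⟩ = w γ := toCircle_arg (hw γ hγ)
    rw [e1, e2] at h8
    exact h8

end Pool.Agent.H167.EXKR
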